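import Pool.Agent.Helper28.T7.StN
import Pool.Agent.Helper45.T5N.M_CA5

/-!
# Project T7, low levels, module CA5: the gluing argument for an arbitrary integral matrix

The statement does not depend on the level; see `Pool/Agent/Helper45/T5N/M_CA5.lean`.
-/

set_option autoImplicit false

namespace Pool.Agent.Helper45.T7N

/-- Module CA5. -/
theorem hCA5 : Pool.Agent.Helper28.T7.ZCA5 := Pool.Agent.Helper45.T5N.hCA5

end Pool.Agent.Helper45.T7N
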